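import Pool.Agent.H4.SE.Targets

/-!
# Word tuples: the smaller system is uniformly distributed
-/

set_option autoImplicit false

open Finset Equiv
open scoped Classical

namespace Pool.Agent.H86.SE4.IS

open Pool.Agent.H4.SE

/-- fibres of one coordinate -/
theorem card_getD (β : Type) [Fintype β] (x : β) :
    ((univ : Finset (Option β × β)).filter fun q => q.1.getD q.2 = x).card =
      Fintype.card β + 1 := by
  have h : ((univ : Finset (Option β × β)).filter fun q => q.1.getD q.2 = x) =
      insert ((none : Option β), x) (((univ : Finset β)).image fun b => (some x, b)) := by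
    ext ⟨o, b⟩
    cases o with
    | none => simp
    | some a => simp [eq_comm]
  rw [h, card_insert_of_notMem (by simp), card_image_of_injective _ (by
    intro a b hab
    simpa using hab), card_univ]

theorem pf_IS : T_IS := by
  intro r k β _ _ _
  refine ⟨(Fintype.card β + 1) ^ r * (Fintype.card β + 1) ^ k, by positivity, ?_⟩
  rintro ⟨⟨σ, v⟩, p⟩
  have h : (univ.filter fun ω : Oh r k β => (sml ω, pt ω) = ((σ, v), p)) =
      ({σ} : Finset (Fin r → Perm β)) ×ˢ
        ((Fintype.piFinset fun i => (univ : Finset (Option β × β)).filter fun q =>
            q.1.getD q.2 = p i) ×ˢ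
          (Fintype.piFinset fun m => (univ : Finset (Option β × β)).filter fun q =>
            q.1.getD q.2 = v m)) := by
    ext ⟨s, o, c⟩
    simp only [mem_filter, mem_univ, true_and, mem_product, mem_singleton,
      Fintype.mem_piFinset, sml, pt, Prod.mk.injEq, funext_iff]
    tauto
  rw [h, card_product, card_product, card_singleton, one_mul, Fintype.card_piFinset,
    Fintype.card_piFinset]
  have h1 : ∀ x : β, ((univ : Finset (Option β × β)).filter fun q => q.1.getD q.2 = x).card =
      Fintype.card β + 1 := by
    intro x
    convert card_getD β x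
  have h2 : ∀ (m : ℕ) (f : Fin m → β), (∏ i, ((univ : Finset (Option β × β)).filter fun q =>
      q.1.getD q.2 = f i).card) = (Fintype.card β + 1) ^ m := by
    intro m f
    rw [Finset.prod_congr rfl fun i _ => h1 (f i), prod_const, card_univ, Fintype.card_fin]
  exact congrArg₂ (· * ·) (h2 r p) (h2 k v)

end Pool.Agent.H86.SE4.IS
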