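import Pool.Agent.H4.SE.Targets
import Pool.Agent.H11.SAE.Criterion

/-!
# Word tuples: the entropy criterion
-/

set_option autoImplicit false

open Finset Equiv Filter
open scoped Classical

namespace Pool.Agent.H86.SE4.CR

open Pool.Agent.H4.SE
open Pool.Agent.H11.SAE

/-- the number of values in a set, counted with the fibres -/
theorem sum_inv_fib {Ω Y : Type} [Fintype Ω] (f : Ω → Y) (I : Finset Y) :
    (∑ x ∈ univ.filter fun x => f x ∈ I, (1 : ℝ) / fib f x) ≤ I.card := by
  classical
  rw [← Finset.sum_fiberwise_of_maps_to (s := univ.filter fun x => f x ∈ I) (t := I) (g := f)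
    (fun x hx => (mem_filter.1 hx).2)]
  calc (∑ y ∈ I, ∑ x ∈ (univ.filter fun x => f x ∈ I).filter fun x => f x = y,
        (1 : ℝ) / fib f x) ≤ ∑ _y ∈ I, (1 : ℝ) := by
        refine Finset.sum_le_sum fun y hy => ?_
        have h1 : ∀ x ∈ (univ.filter fun x => f x ∈ I).filter fun x => f x = y,
            (1 : ℝ) / fib f x = 1 / ((univ.filter fun z => f z = y).card : ℝ) := by
          intro x hx
          have hx' := (mem_filter.1 hx).2
          rw [fib, hx']
        rw [Finset.sum_congr rfl h1, Finset.sum_const, nsmul_eq_mul]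
        have h2 : ((univ.filter fun x => f x ∈ I).filter fun x => f x = y).card ≤
            (univ.filter fun z => f z = y).card := by
          apply card_le_card
          intro x hx
          exact mem_filter.2 ⟨mem_univ _, (mem_filter.1 hx).2⟩
        rcases Nat.eq_zero_or_pos (univ.filter fun z => f z = y).card with h0 | h0
        · rw [h0] at h2
          rw [Nat.le_zero.1 h2]
          simp
        · rw [mul_one_div, div_le_one (by exact_mod_cast h0)]
          exact_mod_cast h2
    _ = I.card := by rw [Finset.sum_const, nsmul_eq_mul, mul_one]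

/-- contribution of the points with value in `I` -/
theorem part_le {Ω Y : Type} [Fintype Ω] [Nonempty Ω] (f : Ω → Y) (I : Finset Y) :
    (∑ x ∈ univ.filter fun x => f x ∈ I, (Real.log (Fintype.card Ω) - Real.log (fib f x))) ≤
      (univ.filter fun x => f x ∈ I).card * (Real.log I.card + Real.log (Fintype.card Ω) -
        Real.log (univ.filter fun x => f x ∈ I).card) := by
  classical
  set S := univ.filter fun x => f x ∈ I with hS
  rcases S.eq_empty_or_nonempty with h0 | ⟨x0, hx0⟩
  · rw [h0]
    simp
  have hI : 0 < I.card := card_pos.2 ⟨f x0, (mem_filter.1 hx0).2⟩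
  have hSc : 0 < S.card := card_pos.2 ⟨x0, hx0⟩
  have hI' : (0 : ℝ) < I.card := by exact_mod_cast hI
  have hS' : (0 : ℝ) < S.card := by exact_mod_cast hSc
  have hfib : ∀ x, (0 : ℝ) < fib f x := by
    intro x
    have : 0 < fib f x := card_pos.2 ⟨x, by simp⟩
    exact_mod_cast this
  have key : ∀ x ∈ S, Real.log (Fintype.card Ω) - Real.log (fib f x) ≤
      (Real.log I.card + Real.log (Fintype.card Ω) - Real.log S.card) +
        (S.card / I.card * (1 / fib f x) - 1) := by
    intro x _
    have h1 := Real.log_le_sub_one_of_pos (x := S.card / I.card * (1 / fib f x))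
      (mul_pos (div_pos hS' hI') (one_div_pos.2 (hfib x)))
    rw [Real.log_mul (div_pos hS' hI').ne' (one_div_pos.2 (hfib x)).ne',
      Real.log_div hS'.ne' hI'.ne', one_div, Real.log_inv, ← one_div] at h1
    linarith
  refine (Finset.sum_le_sum key).trans ?_
  rw [Finset.sum_add_distrib, Finset.sum_const, nsmul_eq_mul, Finset.sum_sub_distrib,
    Finset.sum_const, nsmul_eq_mul, mul_one, ← Finset.mul_sum]
  have h2 := sum_inv_fib f I
  have h3 : (S.card : ℝ) / I.card * ∑ x ∈ S, (1 : ℝ) / fib f x ≤ S.card := by
    calc (S.card : ℝ) / I.card * ∑ x ∈ S, (1 : ℝ) / fib f x ≤ S.card / I.card * I.card :=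
          mul_le_mul_of_nonneg_left h2 (div_pos hS' hI').le
      _ = S.card := div_mul_cancel₀ _ hI'.ne'
  linarith

/-- large entropy gives large images of large sets -/
theorem image_large {Ω Y : Type} [Fintype Ω] [Nonempty Ω] [Fintype Y] [Nonempty Y] (f : Ω → Y)
    (A : Finset Ω) (δ b : ℝ) (hδ : 0 < δ) (hA : δ * Fintype.card Ω ≤ A.card) (hAne : A.Nonempty)
    (h : Real.log (Fintype.card Y) - b ≤ ent f) :
    Real.exp (-((1 + b) / δ)) * Fintype.card Y ≤ (A.image f).card := by
  classical
  set I := A.image f with hI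
  set M : ℝ := (Fintype.card Ω : ℝ) with hM
  set S := univ.filter fun x => f x ∈ I with hS
  have hM0 : (0 : ℝ) < M := by rw [hM]; exact_mod_cast Fintype.card_pos
  have hY0 : (0 : ℝ) < Fintype.card Y := by exact_mod_cast Fintype.card_pos
  have hAS : A ⊆ S := fun x hx => mem_filter.2 ⟨mem_univ _, mem_image_of_mem f hx⟩
  have hIne : I.Nonempty := hAne.image f
  have hI0 : (0 : ℝ) < I.card := by exact_mod_cast card_pos.2 hIne
  have hS0 : (0 : ℝ) < S.card := by exact_mod_cast card_pos.2 (hAne.mono hAS)
  have hIY : Real.log I.card ≤ Real.log (Fintype.card Y) :=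
    Real.log_le_log hI0 (by exact_mod_cast card_le_univ I)
  have hSA : (A.card : ℝ) ≤ S.card := by exact_mod_cast card_le_card hAS
  -- the complement
  set S' := univ.filter fun x => f x ∈ Iᶜ with hS'
  have hSS' : (S.card : ℝ) + S'.card = M := by
    have h1 := Finset.card_filter_add_card_filter_not (s := (univ : Finset Ω)) (fun x => f x ∈ I)
    have h2 : (univ.filter fun x => ¬ f x ∈ I) = S' := by
      rw [hS']
      ext x
      simp
    rw [h2, card_univ] at h1
    rw [hM]
    exact_mod_cast h1
  have hsum : M * ent f = (∑ x ∈ S, (Real.log M - Real.log (fib f x))) +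
      ∑ x ∈ S', (Real.log M - Real.log (fib f x)) := by
    have h2 : (univ.filter fun x => ¬ f x ∈ I) = S' := by
      rw [hS']
      ext x
      simp
    rw [← h2, hS, Finset.sum_filter_add_sum_filter_not, ent, ← hM, mul_div_cancel₀ _ hM0.ne']
  have p1 := part_le f I
  have p2 := part_le f Iᶜ
  rw [← hM, ← hS] at p1
  rw [← hM, ← hS'] at p2
  -- entropy of the indicator
  have e1 : ∀ s : ℝ, 0 ≤ s → s * (Real.log M - Real.log s) ≤ M - s := by
    intro s hs
    rcases hs.eq_or_lt with rfl | hs
    · simp [hM0.le]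
    · have h1 := Real.log_le_sub_one_of_pos (x := M / s) (div_pos hM0 hs)
      rw [Real.log_div hM0.ne' hs.ne'] at h1
      calc s * (Real.log M - Real.log s) ≤ s * (M / s - 1) :=
            mul_le_mul_of_nonneg_left h1 hs.le
        _ = M - s := by field_simp
  have q1 := e1 S.card hS0.le
  have q2 := e1 S'.card (Nat.cast_nonneg _)
  have q3 : (S'.card : ℝ) * Real.log (Iᶜ).card ≤ S'.card * Real.log (Fintype.card Y) := by
    refine mul_le_mul_of_nonneg_left ?_ (Nat.cast_nonneg _)
    rcases Nat.eq_zero_or_pos (Iᶜ).card with h0 | h0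
    · rw [h0, Nat.cast_zero, Real.log_zero]
      exact Real.log_natCast_nonneg _
    · exact Real.log_le_log (by exact_mod_cast h0) (by exact_mod_cast card_le_univ _)
  have main : M * (Real.log (Fintype.card Y) - b) ≤ S.card * Real.log I.card +
      S'.card * Real.log (Fintype.card Y) + M := by
    have := mul_le_mul_of_nonneg_left h hM0.le
    nlinarith
  have main2 : S.card * (Real.log (Fintype.card Y) - Real.log I.card) ≤ M * (1 + b) := by
    have : (S'.card : ℝ) = M - S.card := by linarith
    rw [this] at main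
    nlinarith
  have main3 : Real.log (Fintype.card Y) - Real.log I.card ≤ (1 + b) / δ := by
    rw [le_div_iff₀ hδ]
    have h1 : δ * M * (Real.log (Fintype.card Y) - Real.log I.card) ≤
        S.card * (Real.log (Fintype.card Y) - Real.log I.card) :=
      mul_le_mul_of_nonneg_right (hA.trans hSA) (by linarith)
    have h2 := h1.trans main2
    have h3 : M * ((Real.log (Fintype.card Y) - Real.log I.card) * δ) ≤ M * (1 + b) := by
      calc M * ((Real.log (Fintype.card Y) - Real.log I.card) * δ) =
          δ * M * (Real.log (Fintype.card Y) - Real.log I.card) := by ring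
        _ ≤ _ := h2
    exact le_of_mul_le_mul_left h3 hM0
  have h4 : -((1 + b) / δ) + Real.log (Fintype.card Y) ≤ Real.log I.card := by linarith
  calc Real.exp (-((1 + b) / δ)) * Fintype.card Y =
      Real.exp (-((1 + b) / δ) + Real.log (Fintype.card Y)) := by
        rw [Real.exp_add, Real.exp_log hY0]
    _ ≤ Real.exp (Real.log I.card) := Real.exp_le_exp.2 h4
    _ = I.card := Real.exp_log hI0

theorem pf_CR : T_CR := by
  intro r d hdr w h
  refine tendsto_order.2 ⟨fun a ha => Eventually.of_forall fun n =>
    lt_of_lt_of_le ha (kantorovich_nonneg _ _), fun ε hε => ?_⟩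
  set ε1 : ℝ := ε / 4 with hε1def
  have hε1 : 0 < ε1 := by rw [hε1def]; linarith
  set δ : ℝ := ε / (4 * (d + 1)) with hδdef
  have hd1 : (0 : ℝ) < 4 * (d + 1) := by positivity
  have hδ : 0 < δ := div_pos hε hd1
  have hδd : δ * d ≤ ε / 4 := by
    rw [hδdef, div_mul_eq_mul_div, div_le_div_iff₀ hd1 (by norm_num)]
    nlinarith
  obtain ⟨κ, hκ, H2⟩ := exists_blowup d hε1
  have hη : 0 < δ * κ / 2 := by positivity
  obtain ⟨N0, hN0⟩ := exists_nat_ge ((1 / δ - Real.log δ) / (κ / 2))
  filter_upwards [h (δ * κ / 2) hη, eventually_ge_atTop N0, eventually_ge_atTop 1] with n hn hnN hn1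
  have hn0 : (0 : ℝ) < n := by exact_mod_cast hn1
  have hbig : 1 / δ - Real.log δ ≤ κ / 2 * n := by
    have h1 : (1 / δ - Real.log δ) / (κ / 2) ≤ n := hN0.trans (by exact_mod_cast hnN)
    rw [div_le_iff₀ (by positivity)] at h1
    linarith
  have c2 : Real.exp ((1 + δ * κ / 2 * n) / δ - κ * n) ≤ δ := by
    rw [← Real.le_log_iff_exp_le hδ]
    have : (1 + δ * κ / 2 * n) / δ = 1 / δ + κ / 2 * n := by
      field_simp
    rw [this]
    linarith
  have hM : (0 : ℝ) < Fintype.card (Fin r → Perm (Fin n)) := by exact_mod_cast Fintype.card_pos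
  have hM' : (0 : ℝ) < Fintype.card (Fin d → Perm (Fin n)) := by exact_mod_cast Fintype.card_pos
  have key : ∀ A : Finset (Fin r → Perm (Fin n)),
      δ * Fintype.card (Fin r → Perm (Fin n)) ≤ A.card → A.Nonempty →
      (((univ : Finset (Fin d → Perm (Fin n))).filter
        fun y => ∀ a ∈ A, ε1 * n < td (wordMap w n a) y).card : ℝ) ≤
        δ * Fintype.card (Fin d → Perm (Fin n)) := by
    intro A hA hAne
    have h1 := image_large (fun σ : Fin r → Perm (Fin n) => wordMap w n σ) A δ (δ * κ / 2 * n)
      hδ hA hAne hn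
    have h2 := H2 n (A.image fun σ : Fin r → Perm (Fin n) => wordMap w n σ)
      ((1 + δ * κ / 2 * n) / δ) (hAne.image _) (by convert h1)
    refine le_trans ?_ (h2.trans ?_)
    · have : ((univ : Finset (Fin d → Perm (Fin n))).filter
          fun y => ∀ a ∈ A, ε1 * n < td (wordMap w n a) y).card ≤
          ((univ : Finset (Fin d → Perm (Fin n))).filter fun x =>
            ∀ y ∈ A.image fun σ : Fin r → Perm (Fin n) => wordMap w n σ,
              ε1 * n ≤ td x y).card := by
        apply card_le_card
        intro y hy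
        refine mem_filter.2 ⟨mem_univ _, fun z hz => ?_⟩
        obtain ⟨a, ha, rfl⟩ := mem_image.1 hz
        rw [td_symm]
        exact ((mem_filter.1 hy).2 a ha).le
      exact_mod_cast this
    · rw [mul_comm]
      exact mul_le_mul_of_nonneg_right c2 hM'.le
  have hcardY : Fintype.card (Fin r → Perm (Fin n)) =
      Fintype.card ((Fin d → Perm (Fin n)) × (Fin (r - d) → Perm (Fin n))) := by
    rw [Fintype.card_prod, Fintype.card_fun, Fintype.card_fun, Fintype.card_fun, Fintype.card_fin,
      Fintype.card_fin, Fintype.card_fin, ← pow_add, Nat.add_sub_cancel' hdr]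
  set M : ℝ := ((Fintype.card (Fin r → Perm (Fin n)) : ℕ) : ℝ) with hMdef
  obtain ⟨e, he⟩ := exists_matching hcardY
    (fun σ y => td (wordMap w n σ) y.1 ≤ ε1 * n) ⌊δ * M⌋₊ (by
      intro A
      by_cases hA : A.card ≤ ⌊δ * M⌋₊
      · exact hA.trans (Nat.le_add_left _ _)
      · rw [not_le] at hA
        have hA1 : δ * M ≤ A.card := by
          have := Nat.lt_floor_add_one (δ * M)
          have h2 : ((⌊δ * M⌋₊ + 1 : ℕ) : ℝ) ≤ A.card := by exact_mod_cast hA
          push_cast at h2
          linarith
        have hAne : A.Nonempty := Finset.card_pos.1 (lt_of_le_of_lt (Nat.zero_le _) hA)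
        have key := key A hA1 hAne
        have h3 : ((univ : Finset ((Fin d → Perm (Fin n)) × (Fin (r - d) → Perm (Fin n)))).filter
            fun y => ¬ ∃ σ ∈ A, td (wordMap w n σ) y.1 ≤ ε1 * n) =
            ((univ : Finset (Fin d → Perm (Fin n))).filter
              fun y => ∀ a ∈ A, ε1 * n < td (wordMap w n a) y) ×ˢ univ := by
          ext ⟨y, z⟩
          simp only [mem_filter, mem_univ, true_and, mem_product, and_true, not_exists, not_and,
            not_le]
        have h4 : (((univ : Finset ((Fin d → Perm (Fin n)) ×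
            (Fin (r - d) → Perm (Fin n)))).filter
            fun y => ¬ ∃ σ ∈ A, td (wordMap w n σ) y.1 ≤ ε1 * n).card : ℝ) ≤ δ * M := by
          rw [h3, card_product, card_univ, Nat.cast_mul, hMdef, hcardY, Fintype.card_prod,
            Nat.cast_mul, ← mul_assoc]
          exact mul_le_mul_of_nonneg_right key (Nat.cast_nonneg _)
        have h5 := Nat.le_floor h4
        have h6 := Finset.card_filter_add_card_filter_not (s := (univ : Finset ((Fin d → Perm (Fin n)) ×
            (Fin (r - d) → Perm (Fin n))))) (fun y => ∃ σ ∈ A,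
              td (wordMap w n σ) y.1 ≤ ε1 * n)
        have h7 : A.card ≤ Fintype.card ((Fin d → Perm (Fin n)) ×
            (Fin (r - d) → Perm (Fin n))) := by
          rw [← hcardY]
          exact card_le_univ A
        rw [card_univ] at h6
        omega)
  refine lt_of_le_of_lt (kantorovich_le_of_equiv w e) ?_
  have hcost : ∑ σ, tupleDist (wordMap w n σ) (e σ).1 ≤ M * (ε / 4) + δ * M * d := by
    rw [← Finset.sum_filter_add_sum_filter_not univ
      (fun σ => td (wordMap w n σ) (e σ).1 ≤ ε1 * n)]
    refine add_le_add ?_ ?_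
    · calc ∑ σ ∈ univ.filter fun σ => td (wordMap w n σ) (e σ).1 ≤ ε1 * n,
            tupleDist (wordMap w n σ) (e σ).1
          ≤ ∑ _σ ∈ univ.filter fun σ => td (wordMap w n σ) (e σ).1 ≤ ε1 * n,
            (ε / 4) := by
            refine Finset.sum_le_sum fun σ hσ => ?_
            have := (mem_filter.1 hσ).2
            rw [tupleDist_eq, div_le_iff₀ hn0, ← hε1def]
            exact this
        _ ≤ M * (ε / 4) := by
            rw [Finset.sum_const, nsmul_eq_mul]
            refine mul_le_mul_of_nonneg_right ?_ (by linarith)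
            rw [hMdef]
            exact_mod_cast card_le_univ _
    · calc ∑ σ ∈ univ.filter fun σ => ¬ td (wordMap w n σ) (e σ).1 ≤ ε1 * n,
            tupleDist (wordMap w n σ) (e σ).1
          ≤ ∑ _σ ∈ univ.filter fun σ => ¬ td (wordMap w n σ) (e σ).1 ≤ ε1 * n,
            (d : ℝ) := Finset.sum_le_sum fun σ _ => tupleDist_le _ _
        _ ≤ δ * M * d := by
            rw [Finset.sum_const, nsmul_eq_mul]
            refine mul_le_mul_of_nonneg_right ?_ (Nat.cast_nonneg _)
            have h1 : ((univ.filter fun σ => ¬ td (wordMap w n σ) (e σ).1 ≤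
                ε1 * n).card : ℝ) ≤ (⌊δ * M⌋₊ : ℝ) := by exact_mod_cast he
            exact h1.trans (Nat.floor_le (by positivity))
  rw [div_lt_iff₀ hM]
  have : M * (ε / 4) + δ * M * d = M * (ε / 4 + δ * d) := by ring
  rw [this] at hcost
  refine lt_of_le_of_lt hcost ?_
  rw [mul_comm]
  refine mul_lt_mul_of_pos_right ?_ hM
  linarith

end Pool.Agent.H86.SE4.CR
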